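import Mathlib
import Pool.Agent.X53.Bic.Asym
import Pool.Agent.X53.Bic.Upper

/-!
# MP_28a56a_co, Q1: the gap between `η^*` and `μ` is `n^(1 - o(1))`
-/

namespace Pool.Agent.Results.MP_28a56a_co.NearLinearGap

open Finset Classical Pool.Agent.X53.Bic

/-- (1) For every `ε > 0` and every large `n` some bipartite graph on at most `n` vertices has
`η^*(G) ≥ n^(1 - ε) μ(G)` (and its number of vertices is at least any prescribed `N`).
(2) Every bipartite graph with at least one edge has `η^*(G) ≤ n μ(G)`, `n` its number of vertices.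
(3) For every `k` there are bipartite graphs on arbitrarily many vertices `n` with
`η^*(G) > (log n)^k μ(G)`. -/
theorem result :
    (∀ ε : ℝ, 0 < ε → ∀ N : ℕ, ∃ N0 : ℕ, ∀ n : ℕ, N0 ≤ n →
      ∃ (α β : Type) (_ : Fintype α) (_ : Fintype β) (E : α → β → Prop),
        NoIsolated E ∧ N ≤ Fintype.card α + Fintype.card β ∧
          Fintype.card α + Fintype.card β ≤ n ∧ 0 < mu E ∧
            (n : ℝ) ^ (1 - ε) * mu E ≤ etaStar E) ∧
    (∀ (α β : Type) (_ : Fintype α) (_ : Fintype β) (E : α → β → Prop),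
      (∃ x y, E x y) → etaStar E ≤ ((Fintype.card α : ℝ) + Fintype.card β) * mu E) ∧
    ∀ k N : ℕ, ∃ (α β : Type) (_ : Fintype α) (_ : Fintype β) (E : α → β → Prop),
      NoIsolated E ∧ N ≤ Fintype.card α + Fintype.card β ∧ 0 < mu E ∧
        Real.log ((Fintype.card α + Fintype.card β : ℕ) : ℝ) ^ k * mu E < etaStar E := by
  refine ⟨asym, ?_, ?_⟩
  · rintro α β _ _ E ⟨x, y, hxy⟩
    exact eta_upper E ⟨(x, y), mem_filter.2 ⟨mem_product.2 ⟨mem_univ _, mem_univ _⟩, hxy⟩⟩
  · intro k N
    obtain ⟨N0, hN0⟩ := asym (1 / 2) (by norm_num) (N + 1)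
    have hlit := (isLittleO_log_rpow_atTop (show (0 : ℝ) < 1 / (2 * (k + 1)) by positivity)).def
      (show (0 : ℝ) < 1 / 2 by norm_num)
    have hev := tendsto_natCast_atTop_atTop.eventually hlit
    obtain ⟨n0, hn0⟩ := Filter.eventually_atTop.1 hev
    set n := max N0 (max n0 3) with hn
    have hn3 : 3 ≤ n := le_trans (le_max_right _ _) (le_max_right _ _)
    have hnR : (3 : ℝ) ≤ n := by exact_mod_cast hn3
    obtain ⟨α, β, hα, hβ, E, h1, h2, h3, h4, h5⟩ := hN0 n (le_max_left _ _)
    refine ⟨α, β, hα, hβ, E, h1, by omega, h4, ?_⟩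
    have hlog := hn0 n (le_trans (le_max_left _ _) (le_max_right _ _))
    have hlogpos : 0 < Real.log n := Real.log_pos (by linarith)
    rw [Real.norm_of_nonneg hlogpos.le, Real.norm_of_nonneg (by positivity)] at hlog
    have hc1 : (1 : ℝ) ≤ ((Fintype.card α + Fintype.card β : ℕ) : ℝ) := by
      have : 1 ≤ Fintype.card α + Fintype.card β := by omega
      exact_mod_cast this
    have hl0 : 0 ≤ Real.log ((Fintype.card α + Fintype.card β : ℕ) : ℝ) := Real.log_nonneg hc1
    have hl1 : Real.log ((Fintype.card α + Fintype.card β : ℕ) : ℝ) ≤ Real.log n :=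
      Real.log_le_log (by linarith) (by exact_mod_cast h3)
    set z : ℝ := (n : ℝ) ^ (1 / (2 * ((k : ℝ) + 1))) with hz
    have hz1 : 1 ≤ z := Real.one_le_rpow (by linarith) (by positivity)
    have hzk : z ^ (k + 1) = (n : ℝ) ^ (1 - 1 / 2 : ℝ) := by
      rw [hz, ← Real.rpow_natCast, ← Real.rpow_mul (by linarith)]
      congr 1
      push_cast
      field_simp
      norm_num
    have hlt : Real.log ((Fintype.card α + Fintype.card β : ℕ) : ℝ) ^ k <
        (n : ℝ) ^ (1 - 1 / 2 : ℝ) := by
      have h6 : Real.log ((Fintype.card α + Fintype.card β : ℕ) : ℝ) ≤ 1 / 2 * z := hl1.trans hlog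
      rw [← hzk]
      rcases Nat.eq_zero_or_pos k with hk | hk
      · -- `k = 0`: `1 < z`
        rw [hk, pow_zero, zero_add, pow_one]
        exact Real.one_lt_rpow (by linarith) (by positivity)
      · have h7 : Real.log ((Fintype.card α + Fintype.card β : ℕ) : ℝ) ^ k ≤ (1 / 2 * z) ^ k :=
          pow_le_pow_left₀ hl0 h6 k
        have h8 : (1 / 2 * z) ^ k < z ^ k :=
          pow_lt_pow_left₀ (by linarith) (by linarith) (by omega)
        have h9 : z ^ k ≤ z ^ (k + 1) := pow_le_pow_right₀ hz1 (by omega)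
        linarith
    exact lt_of_lt_of_le (mul_lt_mul_of_pos_right hlt h4) h5

end Pool.Agent.Results.MP_28a56a_co.NearLinearGap
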